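import Pool.Agent.Helper2.RG.Defs2
import Pool.Agent.Helper2.RG.M_LIFT
import Pool.Agent.Helper2.RG.M_HEART
import Pool.Agent.Helper2.RG.M_H94
import Pool.Agent.Helper45.RG.M_CONJ
import Pool.Agent.Helper85.RG.M_FRAT
import Pool.Agent.Helper42.RG.M_GOODB
import Pool.Agent.Helper63.RG.M_ALG
import Pool.Agent.Helper3.RG.M_UNITS
import Pool.Agent.Helper40.RG.M_PRIN
import Pool.Agent.Helper34.RG.M_IDEAL
import Pool.Agent.Helper85.RG.M_RAM
import Pool.Agent.Helper52.RG.M_INDEX
import Pool.Agent.Helper47.RG.M_GOODA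
import Pool.Agent.Helper52.RG.M_PROF
import Pool.Agent.Helper62.RG.M_ONE
import Pool.Agent.Helper99.RG.M_IM
import Pool.Agent.Helper2.RG.M_COH
import Pool.Agent.Helper3.RG.M_EXT
import Pool.Agent.Helper54.DG.CaseC
import Pool.Agent.Helper54.DG.CubicF

/-!
# One decomposition group detects all `l`-adic classes

Let `l` be a prime, `S` a finite set of primes, `F0 ≤ F` number fields inside an algebraic closure `Qb` of `ℚ`, `P0` a
prime of `Qb` above `l`, and assume one of the following.
* `CaseG`: the decomposition group of `P0` acts transitively on the `F0`-embeddings of `F` (or `F` has one prime above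
  `l`), and no cyclic extension of `F` of degree `l` unramified outside `S ∪ {l, ∞}` splits at `P0` (`Good`), or `l = 2`
  and every element of `F` with even valuations outside `S ∪ {2}` which is a square at `P0` is a square (`CaseC`).
* `CaseA`: `F` has one prime above `l`, class number prime to `l` and enough units at `S`.
* `CaseB`: `l = 2`, `F = ℚ`, `S` empty or one prime `≡ ±3 mod 8`.
* `CaseD`: `l = 2`, `S = {11}`, `F` the cubic field of discriminant `-44`.
Let `k ⊇ F0` be any number field contained in a finite Galois extension of `F` of `l`-power degree unramified outside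
`S ∪ {l, ∞}`, and let `V = ℚ_l ^ n` be a continuous representation of `Gal(Qb/k)`, unramified outside `S ∪ {l}`,
stabilising `ℤ_l ^ n`, on which `Gal(Qb/F)` acts modulo `l` by elements of `l`-power order.  Then a continuous class in
`H^1(k, V)`, unramified outside `S ∪ {l}`, which vanishes on the decomposition group at `P0`, vanishes.
-/

set_option autoImplicit false

open scoped NumberField
open NumberField Pool.RG2

namespace Pool.Agent.Results.MP_76188c_nt.DecompositionGroup

theorem bridge_good (l : ℕ) (S : Finset ℕ) (F : Sub) (P0 : Ideal Zb) (h : Good l S F P0) :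
    Pool.RG.Good l S F P0 := by
  intro N hN hnorm hop hidx hin hD
  refine h N hN hnorm hop hidx ?_ ?_
  · rintro σ ⟨P, hP, hσ⟩ hσF
    exact hin P hP ⟨hσF, hσ⟩
  · intro σ hσ hσF
    exact hD ⟨hσF, hσ⟩

theorem bridge_tower (l : ℕ) (S : Finset ℕ) (F k : Sub) (h : Tower l S F k) :
    Pool.RG.Tower l S F k := by
  obtain ⟨M, ⟨h1, h2, h3, h4, h5⟩, h6⟩ := h
  refine ⟨M, h1, h2, h6, h3, h4, ?_⟩
  intro P hP σ hσ
  exact h5 σ ⟨P, hP, hσ.2⟩ hσ.1

theorem bridge_caseA (l : ℕ) (S : Finset ℕ) (F : Sub) [NumberField F] (h : CaseA F l S) :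
    Pool.RG.CaseA l S F := by
  obtain ⟨h1, h2, h3, h4, h5⟩ := h
  refine ⟨h1, h2, h3, ?_, ?_⟩
  · intro q hq hp
    exact h4 q ⟨hq, hp⟩
  · intro x
    obtain ⟨u, hu⟩ := h5 x
    exact ⟨u, fun q hq hp => hu q ⟨hq, hp⟩⟩

theorem result (l : ℕ) [Fact l.Prime] (S : Finset ℕ) (hS : ∀ p ∈ S, p.Prime)
    (F0 F k : Sub) [NumberField F] (hF0F : F0 ≤ F) (hF0k : F0 ≤ k)
    (P0 : Ideal Zb) (hP0 : P0.IsMaximal) (hlP0 : (l : Zb) ∈ P0)
    (hG : CaseG l S F0 F P0 ∨ CaseA F l S ∨ CaseB l S F ∨ CaseD l S F) (hT : Tower l S F k) :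
    AllVanish l (GF k) (GF F) (Dec P0) (InOut l S) := by
  have hProf := Pool.Agent.Helper52.RG.tProf
  have hLift := Pool.Agent.Helper2.RG.tLift hProf
  have hConj := Pool.Agent.Helper45.RG.tConj
  have hOne := Pool.Agent.Helper62.RG.tOne hProf
  have hAlg := Pool.Agent.Helper63.RG.tAlg
  have hUnits := Pool.Agent.Helper3.RG.tUnits hAlg
  have hPrin := Pool.Agent.Helper40.RG.tPrin Pool.Agent.Helper3.RG.tExt
  have hIdeal := Pool.Agent.Helper34.RG.tIdeal hPrin
  have hIndex := Pool.Agent.Helper52.RG.tIndex Pool.Agent.Helper85.RG.tRam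
  have hH := Pool.Agent.Helper2.RG.tH hUnits hIdeal hIndex
  have hl : l.Prime := Fact.out
  have hFC : ∀ h : CaseC l S F P0, Pool.RG.Good l S F P0 := fun h => Pool.RG.goodC hProf hLift l S F P0 hP0 h
  have hFD : CaseD l S F → CaseC l S F P0 := by
    rintro ⟨h1, h2, h3, θ, hθ⟩
    subst h1 h2
    exact Pool.RG.Cubic.caseC_cubic F θ hθ h3 P0 hlP0
  have hGood : Pool.RG.Good l S F P0 := by
    rcases hG with ⟨-, h | h⟩ | h | h | h
    · exact bridge_good l S F P0 h
    · exact hFC h
    · exact Pool.Agent.Helper47.RG.tGoodA hLift hConj hOne hH l S F P0 hl hS hP0 hlP0 (bridge_caseA l S F h)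
    · exact Pool.Agent.Helper42.RG.tGoodB hProf hLift hConj l S F P0 hP0 hlP0 h
    · exact hFC (hFD h)
  have hT' := bridge_tower l S F k hT
  have hDone : OnePrime F l → Pool.RG.DecSurj F0 F P0 := fun h =>
    Pool.RG.Cubic.decSurj_of_one hOne l hl F0 F hF0F h P0 hP0 hlP0
  have hDS : Pool.RG.DecSurj F0 F P0 := by
    rcases hG with ⟨h | h, -⟩ | h | h | h
    · intro g hg
      obtain ⟨d, hd, hd0, hdg⟩ := h g hg
      exact ⟨d, ⟨hd0, hd⟩, hdg⟩
    · exact hDone h
    · exact hDone h.1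
    · have hF0 : F0 = F := by
        have hb : F = ⊥ := h.2.1
        exact le_antisymm hF0F (hb ▸ bot_le)
      subst hF0
      intro g hg
      refine ⟨1, ⟨one_mem _, one_mem _⟩, ?_⟩
      simpa using hg
    · obtain ⟨h1, h2, h3, θ, hθ⟩ := h
      refine hDone ?_
      subst h1
      exact Pool.RG.Cubic.onePrime_cubic θ hθ h3
  have hFfin : FiniteDimensional ℚ F := inferInstance
  have hkfin : FiniteDimensional ℚ k := by
    obtain ⟨M, hM, -, hkM, -⟩ := hT'
    exact FiniteDimensional.of_injective (IntermediateField.inclusion hkM).toLinearMap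
      (IntermediateField.inclusion hkM).injective
  have hHeart := Pool.Agent.Helper2.RG.tHeart Pool.Agent.Helper85.RG.tFrat hConj l S F0 F k P0 hFfin hF0F hF0k
    hGood hDS hT'
  intro n ρ hρ
  have hρ' : Pool.RG.RepOK l S F k n ρ := by
    refine ⟨hρ.1, ?_, ?_⟩
    · intro P hP σ hσ
      exact hρ.2.1 σ ⟨P, hP, hσ⟩
    · intro σ hσ
      exact hρ.2.2 σ hσ
  have hc := Pool.Agent.Helper2.RG.tCoh Pool.Agent.Helper99.RG.tIm hConj l S F k P0 hkfin hHeart n ρ hρ'
  intro c hcont hcoc hI hDv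
  refine hc c hcont hcoc ?_ ?_
  · intro P hP σ hσ
    exact hI σ ⟨P, hP, hσ⟩
  · obtain ⟨v, hv⟩ := hDv
    exact ⟨v, fun σ hσ => hv σ hσ⟩

end Pool.Agent.Results.MP_76188c_nt.DecompositionGroup
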