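import Pool.Agent.Helper53.EP.All

/-!
# A positive proportion of the even degree hyperelliptic curves over `ℚ` has trivial fake 2-Selmer set

Let `g ≥ 1`, `N = 2 g + 2`.  Order the curves `y ^ 2 = F(x) = c_0 x ^ N + c_1 x ^ (N - 1) + ... + c_N`,
`c_i ∈ ℤ`, `1 ≤ c_0 ≤ B`, by the least `H` with `|c_i| ≤ H ^ i` for all `i ≥ 1`.  If `B` is large enough
(depending on `g`), then for a positive proportion of all these curves: `F` is irreducible, every element of the
fake 2-Selmer set is a constant times a square, the Picard group of the affine curve is divisible by two, the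
curve has no point over any number field of odd degree, and the curve is the quadratic twist by a product
`p₀ D` of primes `≡ 1 mod 8` of a curve `y ^ 2 = f(x)`, `f` monic, with a regular Weierstrass model.
-/

set_option autoImplicit false

namespace Pool.Agent.Results.MP_76188c_nt.EvenHyperelliptic

open Filter Polynomial Pool.Agent.Helper53.EPR

theorem result (g : ℕ) (hg : 1 ≤ g) :
    ∃ B₀ : ℕ, ∀ B : ℕ, B₀ ≤ B → ∃ δ : ℝ, 0 < δ ∧ ∀ᶠ H : ℕ in atTop,
      (family g B H).Finite ∧
        δ * ((family g B H).ncard : ℝ) ≤ ((trivialFamily g B H).ncard : ℝ) :=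
  Pool.Agent.Helper53.EP.main_EP g hg

end Pool.Agent.Results.MP_76188c_nt.EvenHyperelliptic
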