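import Pool.Agent.Helper34.TW.All
import Pool.Agent.Helper34.TW.Bridge

/-!
# MP_76188c_nt: products of hyperelliptic curves with generic Galois image, all bidegrees `(i, j)` with `2 j < i`

`f_1, .., f_r ∈ ℤ[x]` as in `Pool.TW.Hyp`; for `S ⊆ {1, .., r}` the module `V_S` is the tensor product of the `H^1` of the curves
`y² = f_s(x)`, `s ∈ S` (only its properties `Pool.TW.RepR` are used).  There are infinitely many `(D_1, .., D_r)` such that for
the twisted curves `C_s : y² = D_s f_s(x)` and `X = C_1 × .. × C_r` all groups `H^1_st(ℚ, H^(i-1)(X, ℚ_2(j)))`, `2 j < i`, are zero.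
The condition at `2` is only used through its dimension: it may be replaced by any subspace of dimension
`≤ ∏ g_s * ∑_(p < j) C(|S|, p)`.
-/

set_option autoImplicit false

open scoped NumberField
open NumberField Polynomial Pool.RG2 Pool.TW

namespace Pool.Agent.Results.MP_76188c_nt.GenericProducts

theorem result : ∀ (r : ℕ) (f : Fin r → ℤ[X]), Hyp f → ∀ P0 : Ideal Zb, P0.IsMaximal → (2 : Zb) ∈ P0 →
    ∀ (d : Finset (Fin r) → ℕ) (ρ : (S : Finset (Fin r)) → RepZ (d S)), (∀ S, S.Nonempty → RepR f S (ρ S)) →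
    ∀ (u : (S : Finset (Fin r)) → (j : ℤ) → Fin (tn f S j) → GQ → VQ (d S)) (B : ℕ),
    ∃ D : Fin r → ℕ, Adm B D ∧ ∀ S, S.Nonempty → ∀ j : ℤ, 2 * j ≤ S.card → ∀ χ : Ch, QuadR (∏ s ∈ S, D s) χ →
      ConclR (ρ S) (tate χ j) (OutD S D) P0 (u S j) := by
  intro r f hf P0 hP0 h2 d ρ hρ u B
  obtain ⟨D, hD, h⟩ := hMain r f hf P0 hP0 h2 d ρ (fun S hS => repR_ok (hρ S hS)) u B
  exact ⟨D, hD, fun S hS j hj χ hχ => conclR_of (h S hS j hj χ (quadR_of hχ))⟩

end Pool.Agent.Results.MP_76188c_nt.GenericProducts
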