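import Pool.Agent.Helper54.HQ.All
import Pool.Agent.Helper3.HJ.Bridge2

/-!
# A positive proportion of all odd hyperelliptic Jacobians over `ℚ` has trivial 2-Selmer group

Let `g ≥ 1`.  Order the curves `y ^ 2 = f(x) = x ^ (2 g + 1) + c_2 x ^ (2 g - 1) + ... + c_(2 g + 1)`,
`c_i ∈ ℤ`, by the least `H` with `|c_i| ≤ H ^ i` for all `i`.  For a positive proportion of all these curves
the Jacobian over `ℚ` has trivial 2-Selmer group, and moreover the curve is a quadratic twist, by a
product of primes `≡ 1 mod 8` of good reduction, of a curve `y ^ 2 = h(x)` with a regular Weierstrass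
model, `h` irreducible modulo `2` and with only one real root.  In particular both sides of the regulator
map for `ℓ = 2`, `(i, j) = (2, 1)` vanish, and so do both sides for `(i, j) = (2, j)`, `j ≤ 0`.
-/

set_option autoImplicit false

namespace Pool.Agent.Results.MP_76188c_nt.OddHyperelliptic

open Filter Polynomial Pool.Agent.Helper54.HQR
open Pool.Agent.Helper3.HJ (IsTameTwist)

theorem result (g : ℕ) (hg : 1 ≤ g) :
    ∃ δ : ℝ, 0 < δ ∧ ∀ᶠ H : ℕ in atTop,
      δ * ((family (2 * g + 1) H).ncard : ℝ) ≤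
        (({f ∈ trivialFamily (2 * g + 1) H | IsTameTwist f} : Set ℤ[X]).ncard : ℝ) :=
  Pool.Agent.Helper3.HJ.main2 Pool.Agent.Helper54.HQ.a_Up0
    (Pool.Agent.Helper3.HJ.hFin2
      (Pool.Agent.Helper3.HJ.hPos2 Pool.Agent.Helper54.HQ.a_Pol Pool.Agent.Helper54.HQ.a_Good
        Pool.Agent.Helper54.HQ.a_Fs Pool.Agent.Helper54.HQ.a_Ta Pool.Agent.Helper54.HQ.a_De4
        fun _ _ hH _ hf => Pool.Agent.Helper54.HQ.HjAux.reg_unique hH hf)
      Pool.Agent.Helper54.HQ.a_Tl Pool.Agent.Helper54.HQ.a_Tm Pool.Agent.Helper54.HQ.a_Up0) g hg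

end Pool.Agent.Results.MP_76188c_nt.OddHyperelliptic
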